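import Mathlib
import Pool.Agent.H98.FP3

/-! The theory of the infinitely branching tree is dp-minimal and of low VC-density, but it is not
weakly VC-minimal. -/

namespace Pool.Agent.Results.MP_670fc8_lc.Tree

open FirstOrder Language Pool.Agent.H98.FP Filter Asymptotics Finset

universe u

section Defs
variable {L : Language} (M : Type u) [L.Structure M]

/-- The instance `φ(M; b)`. -/
def inst {m k : ℕ} (φ : L.Formula (Fin m ⊕ Fin k)) (b : Fin k → M) : Set (Fin m → M) :=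
  {x | φ.Realize (Sum.elim x b)}

/-- Independent family of sets. -/
def Indep {X : Type u} (𝒜 : Set (Set X)) : Prop :=
  ∀ s : Set X → Prop, ∃ x, ∀ B ∈ 𝒜, x ∈ B ↔ s B

/-- Independence dimension at most one. -/
def IndLeOne {m k : ℕ} (φ : L.Formula (Fin m ⊕ Fin k)) : Prop :=
  ∀ 𝒜 ⊆ Set.range (inst M φ), Indep 𝒜 → 𝒜.encard ≤ 1

variable (L) in
/-- Weak VC-minimality. -/
def WeakVCMin : Prop :=
  ∀ (k : ℕ) (φ : L.Formula (Fin 1 ⊕ Fin k)) (b : Fin k → M), inst M φ b ∈ BooleanSubalgebra.closure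
    {D | ∃ (l : ℕ) (ψ : L.Formula (Fin 1 ⊕ Fin l)) (c : Fin l → M), IndLeOne M ψ ∧ D = inst M ψ c}

variable (L) in
/-- Dp-minimality (consistency = finite satisfiability). -/
def DpMin : Prop :=
  ¬ ∃ (k l : ℕ) (φ : L.Formula (Fin 1 ⊕ Fin k)) (ψ : L.Formula (Fin 1 ⊕ Fin l))
    (b : ℕ → Fin k → M) (c : ℕ → Fin l → M), ∀ i j n, ∃ x, x ∈ inst M φ (b i) ∧ x ∈ inst M ψ (c j) ∧
      (∀ i' < n, i' ≠ i → x ∉ inst M φ (b i')) ∧ ∀ j' < n, j' ≠ j → x ∉ inst M ψ (c j')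

/-- `π*_φ(n)`: the largest number of `φ`-types over an `n`-element parameter set. -/
noncomputable def piStar {m k : ℕ} (φ : L.Formula (Fin m ⊕ Fin k)) (n : ℕ) : ℕ :=
  sSup {N | ∃ B : Finset (Fin k → M), B.card = n ∧
    N = {S : Set (Fin k → M) | ∃ x, S = {b | b ∈ B ∧ x ∈ inst M φ b}}.ncard}

variable (L) in
/-- `π*_φ(n) = O(n^{|x|})` for every `φ(x; y)`. -/
def LowVC : Prop :=
  ∀ (m k : ℕ) (φ : L.Formula (Fin m ⊕ Fin k)),
    (fun n => (piStar M φ n : ℝ)) =O[atTop] fun n => (n : ℝ) ^ m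

end Defs

lemma four {X : Type u} {S T : Set X} {z1 z2 z3 z4 : X} {p q : Prop} (h : ¬(p ↔ q))
    (a1 : z1 ∈ S ↔ p) (b1 : z1 ∈ T ↔ p) (a2 : z2 ∈ S ↔ p) (b2 : z2 ∈ T ↔ q) (a3 : z3 ∈ S ↔ q)
    (b3 : z3 ∈ T ↔ p) (a4 : z4 ∈ S ↔ q) (b4 : z4 ∈ T ↔ q) : S ≠ T ∧ Indep {S, T} := by
  refine ⟨fun e => h (a2.symm.trans (e ▸ b2)), fun s => ?_⟩
  simp only [Set.mem_insert_iff, Set.mem_singleton_iff, forall_eq_or_imp, forall_eq]
  by_cases s1 : s S ↔ p <;> by_cases s2 : s T ↔ p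
  exacts [⟨z1, by tauto⟩, ⟨z2, by tauto⟩, ⟨z3, by tauto⟩, ⟨z4, by tauto⟩]

variable {M : Type u} {G : SimpleGraph M} [Nonempty M] (hG : G.IsAcyclic)
  (hi : ∀ p (A : Finset M), ∃ v, G.Adj p v ∧ v ∉ A)
include hG hi

lemma efi {m k : ℕ} (φ : Language.graph.Formula (Fin m ⊕ Fin k)) :
    letI := G.structure
    ∃ r, ∀ R A B, Good G r R A B → ∀ x y b c, (∀ i, R (x i) (y i)) → (∀ i, R (b i) (c i)) →
      (x ∈ inst M φ b ↔ y ∈ inst M φ c) := by
  obtain ⟨r, h⟩ := ef' hG hi φ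
  exact ⟨r, fun R A B g x y b c h1 h2 => h R A B g _ _ (Sum.rec h1 h2)⟩

lemma low : @LowVC _ M G.structure := by
  classical
  letI := G.structure
  intro m k φ
  obtain ⟨r, hr⟩ := efi hG hi φ
  obtain ⟨K, hK⟩ := count hG hi m r
  refine IsBigO.of_bound (K * (k + 1) ^ m) ?_
  filter_upwards [eventually_ge_atTop 1] with n hn
  suffices piStar M φ n ≤ K * (k + 1) ^ m * n ^ m by
    simp only [norm_pow, Real.norm_natCast]
    exact_mod_cast this
  refine csSup_le' ?_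
  rintro _ ⟨B, rfl, rfl⟩
  obtain ⟨T, h1, h2⟩ := hK (B.biUnion fun b => univ.image b)
  have h3 : (B.biUnion fun b => univ.image b).card ≤ B.card * k :=
    card_biUnion_le_card_mul _ _ _ fun b _ => card_image_le.trans (by simp)
  refine (Set.ncard_le_ncard (t := (fun x => {b | b ∈ B ∧ x ∈ inst M φ b}) '' T) ?_
    (T.finite_toSet.image _)).trans ((Set.ncard_image_le T.finite_toSet).trans ?_)
  · rintro _ ⟨x, rfl⟩
    obtain ⟨t, ht, R, A, C, g1, g2, g3⟩ := h2 x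
    refine ⟨t, ht, Set.ext fun b => and_congr_right fun hb => (hr R A C g1 _ _ _ _ g3 fun i =>
      g2 _ (mem_biUnion.2 ⟨b, hb, mem_image_of_mem _ (mem_univ i)⟩)).symm⟩
  · rw [Set.ncard_coe_finset, mul_assoc, ← mul_pow]
    refine h1.trans ?_
    gcongr
    nlinarith

lemma dp : @DpMin _ M G.structure := by
  classical
  letI := G.structure
  rintro ⟨k, l, φ, ψ, b, c, h⟩
  obtain ⟨r, hr⟩ := efi hG hi φ
  obtain ⟨s, hs⟩ := efi hG hi ψ
  obtain ⟨K, hK⟩ := count hG hi 1 (max r s)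
  set n := K * (k + l + 1) + 1 with hn
  obtain ⟨T, h1, h2⟩ := hK ((range n).biUnion fun i => univ.image (b i) ∪ univ.image (c i))
  have h3 : ((range n).biUnion fun i => univ.image (b i) ∪ univ.image (c i)).card ≤ n * (k + l) :=
    (card_biUnion_le_card_mul _ _ (k + l) fun i _ => (card_union_le _ _).trans
      (add_le_add (card_image_le.trans (by simp)) (card_image_le.trans (by simp)))).trans (by simp)
  have : ∀ p : ℕ × ℕ, ∃ t ∈ T, (∀ i < n, t ∈ inst M φ (b i) ↔ i = p.1) ∧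
      ∀ j < n, t ∈ inst M ψ (c j) ↔ j = p.2 := by
    intro p
    obtain ⟨x, x1, x2, x3, x4⟩ := h p.1 p.2 n
    obtain ⟨t, ht, R, A, C, g1, g2, g3⟩ := h2 x
    refine ⟨t, ht, fun i hi => ?_, fun i hi => ?_⟩
    · rw [← hr R A C (g1.mono (le_max_left _ _)) _ _ _ _ g3 fun j => g2 _ (mem_biUnion.2
        ⟨i, mem_range.2 hi, mem_union_left _ (mem_image_of_mem _ (mem_univ j))⟩)]
      exact ⟨fun h => by_contra fun e => x3 i hi e h, fun e => e ▸ x1⟩
    · rw [← hs R A C (g1.mono (le_max_right _ _)) _ _ _ _ g3 fun j => g2 _ (mem_biUnion.2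
        ⟨i, mem_range.2 hi, mem_union_right _ (mem_image_of_mem _ (mem_univ j))⟩)]
      exact ⟨fun h => by_contra fun e => x4 i hi e h, fun e => e ▸ x2⟩
  choose t ht h4 h5 using this
  have := card_le_card_of_injOn (s := range n ×ˢ range n) t (fun p _ => ht p) fun p hp q _ e => by
    have hp := mem_product.1 (mem_coe.1 hp)
    exact Prod.ext ((h4 q _ (mem_range.1 hp.1)).1 (e ▸ (h4 p _ (mem_range.1 hp.1)).2 rfl))
      ((h5 q _ (mem_range.1 hp.2)).1 (e ▸ (h5 p _ (mem_range.1 hp.2)).2 rfl))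
  rw [card_product, card_range] at this
  have h6 : T.card ≤ K * (n * (k + l) + n) := h1.trans (by rw [pow_one]; gcongr; omega)
  nlinarith

lemma key {l : ℕ} (ψ : Language.graph.Formula (Fin 1 ⊕ Fin l)) (c : Fin l → M) (b : M) :
    letI := G.structure
    IndLeOne M ψ → ∃ F : Finset M, b ∈ F ∧ ∀ u y C C', Ray G F b 1 u C → Ray G F b 3 y C' →
      ((fun _ => u) ∈ inst M ψ c ↔ (fun _ => y) ∈ inst M ψ c) := by
  classical
  letI := G.structure
  intro hψ
  obtain ⟨r, hr⟩ := efi hG hi ψ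
  obtain ⟨s, K, hK⟩ := cnt hG hi l (r + 2)
  obtain ⟨F, h1, h2, -⟩ := hull' hG (r + 3) (insert b (univ.image c))
  have hb : b ∈ F := h1 (mem_insert_self _ _)
  have hc : ∀ i, c i ∈ F := fun i => h1 (mem_insert_of_mem (mem_image_of_mem _ (mem_univ i)))
  have wd : ∀ k ≤ 3, ∀ {u y C C'}, Ray G F b k u C → Ray G F b k y C' →
      ((fun _ => u) ∈ inst M ψ c ↔ (fun _ => y) ∈ inst M ψ c) := by
    intro k hk u y C C' g1 g2
    obtain ⟨R, g3, g4, g5⟩ := Good.ray (r := r) hG ((good_id h2).mono (by omega)) ⟨hb, rfl⟩ g1 g2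
    exact hr R _ _ g3 _ _ _ _ (fun _ => g5) fun i => g4 _ _ ⟨hc i, rfl⟩
  refine ⟨F, hb, fun u y C C' hu hy => by_contra fun hne => ?_⟩
  obtain ⟨m, hm, hmF⟩ := hi b F
  obtain ⟨b', hb', hbF⟩ := hi m (insert m F)
  have hbb : b' ∉ ({m, b} : Finset M) := fun h => hbF (insert_subset_insert _ (by simpa) h)
  have hmb : m ∉ ({b} : Finset M) := by simpa using hm.ne'
  have c1 : ∀ z, Cl G (s + 2) {z} := fun z u hu w hw p hp _ x hx => by
    obtain rfl := mem_singleton.1 hu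
    obtain rfl := mem_singleton.1 hw
    cases p with
    | nil => simpa using hx
    | cons h q => simp at hp
  have g0 := ((good_id (c1 m)).step hG ⟨mem_singleton_self _, rfl⟩ hm.symm (by simpa using hm.ne)
    hb' (by simpa using hb'.ne')).step hG (.inl ⟨mem_singleton_self _, rfl⟩) hb'
    (by simpa [or_comm] using hbb) hm.symm (by simpa [hm.ne] using fun e => hbb (by simp [← e]))
  obtain ⟨T, -, hT⟩ := hK (insert b (insert b' {m}))
  obtain ⟨c', -, R, A, B, g1, g2, g3⟩ := hT _ _ c g0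
  have r1 : R m m := g2 _ _ (.inl (.inl ⟨mem_singleton_self _, rfl⟩))
  have r2 : R b b' := g2 _ _ (.inl (.inr ⟨rfl, rfl⟩))
  have r3 : R b' b := g2 _ _ (.inr ⟨rfl, rfl⟩)
  set D := insert b' (insert m F) ∪ (A ∪ B)
  have d1 : insert b' (insert m F) ⊆ D := subset_union_left
  have d2 : insert m F ⊆ D := (subset_insert _ _).trans d1
  have tr : ∀ k ≤ 2, ∀ p p', R p p' → ∀ {z z' C C'}, Ray G D p k z C → Ray G D p' k z' C' →
      ((fun _ => z) ∈ inst M ψ c ↔ (fun _ => z') ∈ inst M ψ c') := by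
    intro k hk p p' hp z z' C C' e1 e2
    obtain ⟨_, e1⟩ := e1.mono (subset_union_left.trans (subset_union_right (s₁ := _)) : A ⊆ D)
    obtain ⟨_, e2⟩ := e2.mono (subset_union_right.trans (subset_union_right (s₁ := _)) : B ⊆ D)
    obtain ⟨R', e3, e4, e5⟩ := Good.ray (r := r) hG (g1.mono (by omega)) hp e1 e2
    exact hr R' _ _ e3 _ _ _ _ (fun _ => e5) fun i => e4 _ _ (g3 i)
  obtain ⟨z2, e2, -⟩ := ray_exists hi 1 D b
  obtain ⟨z3, e3, -⟩ := ray_exists hi 1 D b'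
  obtain ⟨z4, e4, -⟩ := ray_exists hi 2 D m
  have a1 := wd 1 (by omega) (.succ hm hmF (.zero _ _)) hu
  have a2 := wd 1 (by omega) (e2.mono ((subset_insert _ _).trans d2)).choose_spec hu
  have a3 := wd 3 le_rfl (.succ hm hmF (.succ hb' hbF (e3.mono d1).choose_spec)) hy
  have a4 := wd 3 le_rfl (.succ hm hmF (e4.mono d2).choose_spec) hy
  have b1 := tr 0 (by omega) m m r1 (.zero _ _) (.zero _ _)
  have b2 := tr 1 (by omega) _ _ r3 e3 e2
  have b3 := tr 1 (by omega) _ _ r2 e2 e3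
  have b4 := tr 2 le_rfl _ _ r1 e4 e4
  obtain ⟨hne', hI⟩ := four hne a1 (b1.symm.trans a1) a2 (b2.symm.trans a3) a3 (b3.symm.trans a2)
    a4 (b4.symm.trans a4)
  have := hψ {inst M ψ c, inst M ψ c'} (by rintro _ (rfl | rfl) <;> exact ⟨_, rfl⟩) hI
  rw [Set.encard_pair hne'] at this
  exact absurd this (by decide)

lemma notvc : ¬ @WeakVCMin _ M G.structure := by
  classical
  letI := G.structure
  intro h
  obtain ⟨b⟩ := ‹Nonempty M›
  have := h 1 (Language.adj.formula₂ (.var (.inr 0)) (.var (.inl 0))) fun _ => b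
  have : ∃ F : Finset M, b ∈ F ∧ ∀ u y C C', Ray G F b 1 u C → Ray G F b 3 y C' →
      (G.Adj b u ↔ G.Adj b y) := by
    refine BooleanSubalgebra.closure_bot_sup_induction (p := fun D _ => ∃ F : Finset M, b ∈ F ∧
      ∀ u y C C', Ray G F b 1 u C → Ray G F b 3 y C' → ((fun _ => u) ∈ D ↔ (fun _ => y) ∈ D))
      ?_ ⟨{b}, by simp, by simp⟩ ?_ ?_ this
    · rintro _ ⟨l, ψ, c, h, rfl⟩
      exact key hG hi ψ c b h
    · rintro D _ E _ ⟨F, h1, h2⟩ ⟨F', -, h3⟩
      exact ⟨F ∪ F', mem_union_left _ h1, fun u y C C' g1 g2 => or_congr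
        (h2 u y _ _ (g1.mono subset_union_left).choose_spec (g2.mono subset_union_left).choose_spec)
        (h3 u y _ _ (g1.mono subset_union_right).choose_spec
          (g2.mono subset_union_right).choose_spec)⟩
    · rintro D _ ⟨F, h1, h2⟩
      exact ⟨F, h1, fun u y C C' g1 g2 => not_congr (h2 u y C C' g1 g2)⟩
  obtain ⟨F, h1, h2⟩ := this
  obtain ⟨C, h3, h4, -⟩ := hull' hG 3 F
  obtain ⟨u, u1, u2⟩ := hi b C
  obtain ⟨v, v1, v2⟩ := hi u (insert u C)
  obtain ⟨w, w1, w2⟩ := hi v (insert v (insert u C))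
  have := (h2 u w _ _ (.succ u1 (fun h => u2 (h3 h)) (.zero _ _))
    ((Ray.succ u1 u2 (.succ v1 v2 (.succ w1 w2 (.zero _ _)))).mono h3).choose_spec).1 u1
  have e := (adj_uniq (cl_insert hG (cl_insert hG h4 (h3 h1) u1 u2) (mem_insert_self _ _) v1 v2)
    (mem_insert_self _ _) w1 w2 (mem_insert_of_mem (mem_insert_of_mem (h3 h1)))).1 this.symm
  exact v2 (e ▸ mem_insert_of_mem (h3 h1))

omit hG hi in
theorem result : ∃ T : Language.graph.Theory, T.IsComplete ∧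
    ∀ (M : Type u) [Language.graph.Structure M] [Nonempty M], M ⊨ T →
      DpMin Language.graph M ∧ LowVC Language.graph M ∧ ¬ WeakVCMin Language.graph M := by
  refine ⟨TT, @completeTheory.isComplete _ _ tree.structure _, fun M _ _ _ => ?_⟩
  obtain ⟨G, rfl, hG, hi⟩ := model_forest M
  exact ⟨dp hG hi, low hG hi, notvc hG hi⟩

end Pool.Agent.Results.MP_670fc8_lc.Tree
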